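import Mathlib

/-! A kernel-checkable certificate for the location of the eigenvalues of a rational matrix. -/

namespace R261.ST

/-- dot product of lists -/
def dot : List ℤ → List ℤ → ℤ
  | a :: as, b :: bs => a * b + dot as bs
  | _, _ => 0

/-- matrix times vector -/
def matVec (A : List (List ℤ)) (v : List ℤ) : List ℤ := A.map (fun r => dot r v)

/-- `w - c v` -/
def subc (c : ℤ) : List ℤ → List ℤ → List ℤ
  | a :: as, b :: bs => (a - c * b) :: subc c as bs
  | _, _ => []

/-- `(A - c) v` -/
def step (A : List (List ℤ)) (c : ℤ) (v : List ℤ) : List ℤ := subc c (matVec A v) v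

/-- apply all the factors -/
def run (A : List (List ℤ)) : List ℤ → List ℤ → List ℤ
  | [], v => v
  | c :: cs, v => run A cs (step A c v)

/-- the unit vector -/
def unitv (n j : ℕ) : List ℤ := (List.range n).map (fun i => if i = j then 1 else 0)

/-- all entries are at most `K` in absolute value -/
def bounded (K : ℤ) (v : List ℤ) : Bool := v.all (fun x => decide (-K ≤ x) && decide (x ≤ K))

/-- the check -/
def check (A : List (List ℤ)) (n : ℕ) (cs : List ℤ) (K : ℤ) : Bool :=
  (List.range n).all (fun j => bounded K (run A cs (unitv n j)))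

/-- list to function -/
def fn (n : ℕ) (v : List ℤ) : Fin n → ℤ := fun i => v.getD i 0

/-- list of lists to matrix -/
def mat (n : ℕ) (A : List (List ℤ)) : Matrix (Fin n) (Fin n) ℤ := fun i j => (A.getD i []).getD j 0

theorem dot_eq : ∀ (n : ℕ) (a b : List ℤ), a.length = n → b.length = n →
    dot a b = ∑ i : Fin n, a.getD i 0 * b.getD i 0 := by
  intro n
  induction n with
  | zero =>
    intro a b ha hb
    rw [List.length_eq_zero_iff] at ha hb
    subst ha; subst hb
    simp [dot]
  | succ n ih =>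
    intro a b ha hb
    match a, b, ha, hb with
    | x :: as, y :: bs, ha, hb =>
      rw [dot, ih as bs (by simpa using ha) (by simpa using hb), Fin.sum_univ_succ]
      simp

theorem length_matVec (A : List (List ℤ)) (v : List ℤ) : (matVec A v).length = A.length := by
  simp [matVec]

theorem length_subc : ∀ (c : ℤ) (w v : List ℤ), w.length = v.length → (subc c w v).length = v.length
  | _, [], [], _ => rfl
  | c, a :: as, b :: bs, h => by
    rw [subc, List.length_cons, List.length_cons, length_subc c as bs (by simpa using h)]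

theorem getD_subc : ∀ (c : ℤ) (w v : List ℤ) (_ : w.length = v.length) (i : ℕ),
    (subc c w v).getD i 0 = w.getD i 0 - c * v.getD i 0
  | _, [], [], _, i => by simp [subc]
  | c, a :: as, b :: bs, h, 0 => by simp [subc]
  | c, a :: as, b :: bs, h, i + 1 => by
    rw [subc, List.getD_cons_succ, List.getD_cons_succ, List.getD_cons_succ]
    exact getD_subc c as bs (by simpa using h) i

/-- well-formed lists -/
def WF (n : ℕ) (A : List (List ℤ)) : Prop := A.length = n ∧ ∀ r ∈ A, r.length = n

theorem getD_matVec {n : ℕ} {A : List (List ℤ)} (hA : WF n A) {v : List ℤ} (hv : v.length = n)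
    (i : Fin n) : (matVec A v).getD i 0 = (mat n A).mulVec (fn n v) i := by
  have hi : (i : ℕ) < A.length := by rw [hA.1]; exact i.2
  rw [matVec, List.getD_eq_getElem _ _ (by simpa using hi), List.getElem_map]
  rw [dot_eq n _ _ (hA.2 _ (List.getElem_mem hi)) hv]
  simp only [Matrix.mulVec, dotProduct, mat, fn]
  rw [List.getD_eq_getElem _ _ hi]

theorem length_step {n : ℕ} {A : List (List ℤ)} (hA : WF n A) (c : ℤ) {v : List ℤ}
    (hv : v.length = n) : (step A c v).length = n := by
  rw [step, length_subc, hv]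
  rw [length_matVec, hA.1, hv]

theorem fn_step {n : ℕ} {A : List (List ℤ)} (hA : WF n A) (c : ℤ) {v : List ℤ}
    (hv : v.length = n) : fn n (step A c v) = (mat n A - c • (1 : Matrix (Fin n) (Fin n) ℤ)).mulVec (fn n v) := by
  funext i
  rw [fn, step, getD_subc c _ _ (by rw [length_matVec, hA.1, hv]), getD_matVec hA hv,
    Matrix.sub_mulVec, Matrix.smul_mulVec, Matrix.one_mulVec]
  rfl

/-- the product of the factors -/
def prodm {n : ℕ} (A : Matrix (Fin n) (Fin n) ℤ) : List ℤ → Matrix (Fin n) (Fin n) ℤ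
  | [] => 1
  | c :: cs => prodm A cs * (A - c • (1 : Matrix (Fin n) (Fin n) ℤ))

theorem fn_run {n : ℕ} {A : List (List ℤ)} (hA : WF n A) : ∀ (cs : List ℤ) {v : List ℤ},
    v.length = n → fn n (run A cs v) = (prodm (mat n A) cs).mulVec (fn n v)
  | [], v, _ => by rw [run, prodm, Matrix.one_mulVec]
  | c :: cs, v, hv => by
    rw [run, fn_run hA cs (length_step hA c hv), fn_step hA c hv, prodm, Matrix.mulVec_mulVec]

theorem length_run {n : ℕ} {A : List (List ℤ)} (hA : WF n A) : ∀ (cs : List ℤ) {v : List ℤ},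
    v.length = n → (run A cs v).length = n
  | [], v, hv => hv
  | c :: cs, v, hv => by rw [run]; exact length_run hA cs (length_step hA c hv)

theorem fn_unitv (n : ℕ) (j : Fin n) : fn n (unitv n j) = Pi.single j 1 := by
  funext i
  rw [fn, unitv, List.getD_eq_getElem _ _ (by simp), List.getElem_map, List.getElem_range]
  rcases eq_or_ne i j with rfl | h
  · simp
  · rw [Pi.single_eq_of_ne h, if_neg]
    exact fun h2 => h (Fin.ext h2)

theorem entry_le {n : ℕ} {A : List (List ℤ)} (hA : WF n A) {cs : List ℤ} {K : ℤ}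
    (h : check A n cs K = true) (i j : Fin n) : |prodm (mat n A) cs i j| ≤ K := by
  rw [check, List.all_eq_true] at h
  have h1 := h j (List.mem_range.2 j.2)
  rw [bounded, List.all_eq_true] at h1
  have hl : (unitv n (j : ℕ)).length = n := by simp [unitv]
  have h2 := fn_run hA cs hl
  rw [fn_unitv, Matrix.mulVec_single_one] at h2
  have h3 := congrFun h2 i
  rw [Matrix.col_apply, fn] at h3
  have hlr := length_run hA cs hl
  have hi : (i : ℕ) < (run A cs (unitv n j)).length := by rw [hlr]; exact i.2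
  rw [List.getD_eq_getElem _ _ hi] at h3
  have h4 := h1 _ (List.getElem_mem hi)
  rw [h3, Bool.and_eq_true, decide_eq_true_eq, decide_eq_true_eq] at h4
  exact abs_le.2 h4

/-- cast to complex matrices -/
noncomputable def cm {n : ℕ} (A : Matrix (Fin n) (Fin n) ℤ) : Matrix (Fin n) (Fin n) ℂ :=
  A.map (Int.castRingHom ℂ)

theorem cm_sub {n : ℕ} (A : Matrix (Fin n) (Fin n) ℤ) (c : ℤ) (v : Fin n → ℂ) :
    (cm (A - c • (1 : Matrix (Fin n) (Fin n) ℤ))).mulVec v = (cm A).mulVec v - (c : ℂ) • v := by
  have h : cm (A - c • (1 : Matrix (Fin n) (Fin n) ℤ)) = cm A - (c : ℂ) • (1 : Matrix (Fin n) (Fin n) ℂ) := by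
    ext i j
    show (Int.castRingHom ℂ) (A i j - c * (1 : Matrix (Fin n) (Fin n) ℤ) i j) =
      (Int.castRingHom ℂ) (A i j) - (c : ℂ) * (1 : Matrix (Fin n) (Fin n) ℂ) i j
    rcases eq_or_ne i j with rfl | hij
    · simp
    · simp [Matrix.one_apply_ne hij]
  rw [h, Matrix.sub_mulVec, Matrix.smul_mulVec, Matrix.one_mulVec]

theorem eig {n : ℕ} (A : Matrix (Fin n) (Fin n) ℤ) {v : Fin n → ℂ} {z : ℂ}
    (hv : (cm A).mulVec v = z • v) : ∀ cs : List ℤ,
    (cm (prodm A cs)).mulVec v = ((cs.map (fun c : ℤ => z - (c : ℂ))).prod) • v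
  | [] => by simp [prodm, cm]
  | c :: cs => by
    have h1 : cm (prodm A (c :: cs)) = cm (prodm A cs) * cm (A - c • (1 : Matrix (Fin n) (Fin n) ℤ)) := by
      rw [prodm, cm, Matrix.map_mul]; rfl
    rw [h1, ← Matrix.mulVec_mulVec, cm_sub, hv, ← sub_smul, Matrix.mulVec_smul, eig A hv cs,
      smul_smul, List.map_cons, List.prod_cons]

theorem norm_prod_le {n : ℕ} {A : List (List ℤ)} (hA : WF n A) {cs : List ℤ} {K : ℤ}
    (h : check A n cs K = true) {v : Fin n → ℂ} {z : ℂ} (hv0 : v ≠ 0)
    (hv : (cm (mat n A)).mulVec v = z • v) :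
    ‖(cs.map (fun c : ℤ => z - (c : ℂ))).prod‖ ≤ n * K := by
  have hne : ∃ i, v i ≠ 0 := by
    by_contra hc
    push Not at hc
    exact hv0 (funext hc)
  obtain ⟨i0, hi0⟩ := hne
  obtain ⟨i, _, hmax⟩ := Finset.exists_max_image Finset.univ (fun i => ‖v i‖) ⟨i0, Finset.mem_univ _⟩
  have hvi : 0 < ‖v i‖ := lt_of_lt_of_le (norm_pos_iff.2 hi0) (hmax i0 (Finset.mem_univ _))
  have h1 := congrFun (eig (mat n A) hv cs) i
  set p := (cs.map (fun c : ℤ => z - (c : ℂ))).prod with hp
  have h2 : ‖p‖ * ‖v i‖ ≤ (n * K) * ‖v i‖ := by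
    have e : p * v i = ∑ j, cm (prodm (mat n A) cs) i j * v j := by
      rw [Pi.smul_apply, smul_eq_mul] at h1
      rw [← h1]; rfl
    rw [← norm_mul, e]
    refine (norm_sum_le _ _).trans ?_
    have h3 : ∀ j ∈ Finset.univ, ‖cm (prodm (mat n A) cs) i j * v j‖ ≤ (K : ℝ) * ‖v i‖ := by
      intro j _
      rw [norm_mul]
      have h4 : ‖cm (prodm (mat n A) cs) i j‖ ≤ K := by
        have h5 := entry_le hA h i j
        have h6 : cm (prodm (mat n A) cs) i j = ((prodm (mat n A) cs i j : ℤ) : ℂ) := rfl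
        rw [h6, Complex.norm_intCast]
        exact_mod_cast h5
      have h7 := hmax j (Finset.mem_univ _)
      have h8 : (0 : ℝ) ≤ K := (norm_nonneg _).trans h4
      gcongr
    refine (Finset.sum_le_card_nsmul _ _ _ h3).trans ?_
    rw [Finset.card_univ, Fintype.card_fin, nsmul_eq_mul]
    exact (mul_assoc _ _ _).ge
  exact le_of_mul_le_mul_right h2 hvi

end R261.ST
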