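import Pool.Agent.R261.ST.Core

/-! The data: `10^40 (A - E + 0.99)` for the counterexample with `n = 20`. -/

namespace R261.ST

/-- `10^40 (A - E + 0.99)` -/
def rows : List (List ℤ) :=
  [[-11187591619776491368802517992751796876127, 1087591619776491368802517992751796876127, 0, 0, 0, 0, 0, 0, 0, 0, 0, 0, 0, 0, 0, 0, 0, 0, 0, 0],
   [0, -4970209517283859389670660094488165061363, 10000000000000000000000000000000000000000, 0, 0, 0, 0, 0, 0, 0, 0, 0, 0, 0, 0, 0, 0, 0, 0, 0],
   [7285594327984272964549879395415303739873, 0, -5722974780613005699171045708382299154458, 2714405672015727035450120604584696260127, 0, 0, 0, 0, 0, 0, 0, 0, 0, 0, 0, 0, 0, 0, 0, 0],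
   [0, 5912886679216741408678363465235882019766, 0, -2323584843975346253731190169404138211840, 4087113320783258591321636534764117980234, 0, 0, 0, 0, 0, 0, 0, 0, 0, 0, 0, 0, 0, 0, 0],
   [0, 0, 0, 0, -281288978451867531628842128401328696237, 10000000000000000000000000000000000000000, 0, 0, 0, 0, 0, 0, 0, 0, 0, 0, 0, 0, 0, 0],
   [0, 0, 0, 7196764256240771163302681349089259152765, 0, -85327533290646144539910771052394187763, 2803235743759228836697318650910740847235, 0, 0, 0, 0, 0, 0, 0, 0, 0, 0, 0, 0, 0],
   [0, 0, 0, 0, 3413893664562873100715931659017450863478, 0, 1682492528417786277436080850863986340046, 6586106335437126899284068340982549136522, 0, 0, 0, 0, 0, 0, 0, 0, 0, 0, 0, 0],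
   [0, 0, 0, 0, 0, 0, 0, 1248882724131085435723918937404724531318, 10000000000000000000000000000000000000000, 0, 0, 0, 0, 0, 0, 0, 0, 0, 0, 0],
   [0, 0, 0, 0, 0, 0, 0, 0, 1677247267234960452399830831078106760443, 9150976005681344699688528056700429639506, 849023994318655300311471943299570360494, 0, 0, 0, 0, 0, 0, 0, 0, 0],
   [0, 0, 0, 0, 0, 0, 0, 5837956158337080219850397329133104724382, 0, 1055112637102085652122972655366393445582, 0, 4162043841662919780149602670866895275618, 0, 0, 0, 0, 0, 0, 0, 0],
   [0, 0, 0, 0, 0, 0, 0, 0, 0, 0, 8223192542022519756114172402270305485789, 0, 10000000000000000000000000000000000000000, 0, 0, 0, 0, 0, 0, 0],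
   [0, 0, 0, 0, 0, 0, 0, 0, 0, 0, 0, 4227151520742285801796733672799959293842, 0, 10000000000000000000000000000000000000000, 0, 0, 0, 0, 0, 0],
   [0, 0, 0, 0, 0, 0, 1638001574475225453833205187019890524002, 0, 8361998425524774546166794812980109475998, 0, 0, 0, 8299116956308126857499245333390315722094, 0, 0, 0, 0, 0, 0, 0],
   [0, 0, 0, 0, 5194988118835161016358577794845323753582, 0, 0, 0, 0, 0, 179062773890721777008656966009004950073, 0, 0, 3786487065524295762697033393927327862055, 2645749835349185520809464417159914496142, 1980199271924931685823300821985756800203, 0, 0, 0, 0],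
   [0, 0, 0, 0, 0, 0, 0, 0, 0, 0, 0, 0, 0, 0, 4835232731584591085939574012592660658950, 0, 10000000000000000000000000000000000000000, 0, 0, 0],
   [0, 0, 0, 0, 0, 0, 0, 0, 0, 0, 0, 0, 0, 0, 0, 7078743101857722305814961805549174300307, 0, 10000000000000000000000000000000000000000, 0, 0],
   [0, 0, 0, 0, 0, 0, 0, 0, 0, 0, 0, 0, 0, 0, 0, 0, 4950284725168431793827453077976886626189, 0, 10000000000000000000000000000000000000000, 0],
   [0, 0, 0, 0, 0, 0, 0, 0, 0, 0, 0, 0, 0, 0, 0, 0, 0, 7324146387612958339975162826127972293695, 0, 10000000000000000000000000000000000000000],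
   [0, 0, 0, 0, 0, 0, 0, 0, 0, 0, 0, 3438018733822874087775848862745309450684, 0, 0, 6561981266177125912224151137254690549316, 0, 0, 0, 4885398819443395313492255834004440200084, 0],
   [0, 0, 0, 0, 0, 0, 0, 0, 0, 0, 0, 4048624570780170650764684420636706093614, 0, 0, 0, 5951375429219829349235315579363293906386, 0, 0, 0, 7197488266240971552704771231127868667395]]

/-- `17` factors `0` and three others -/
def shifts : List ℤ :=
  List.replicate 17 0 ++ [12100000000000000000000000000000000000000, 13900000000000000000000000000000000000000, 15900000000000000000000000000000000000000]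

theorem rows_wf : WF 20 rows := by
  constructor
  · decide
  · decide

set_option maxRecDepth 100000 in
theorem check_rows : check rows 20 shifts (10 ^ 762) = true := by decide +kernel

end R261.ST
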